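import Pool.Agent.Helper208.Harmonic.Main

/-!
MP_70146a_co, Q2: two-sided bounds for the guaranteed size `g n s` of a plane harmonic
alternating matching.
-/

set_option autoImplicit false

namespace Pool.Agent.Results.MP_70146a_co.MatchingOrder

open Pool.Agent.Helper208.Harmonic

/-- configurations exist for every `n`, so the minimum defining `g` is over a nonempty set -/
theorem config_nonempty (n : ℕ) : Nonempty (Config n) := ⟨parabola n (Equiv.refl _)⟩

/-- The guaranteed size of a plane harmonic alternating matching is between `n / (26000 log n)`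
and `92 n / (log n)^(1/12)`. -/
theorem result : ∀ n : ℕ, 2 ≤ n → ∀ s < n,
    (n : ℝ) / (26000 * Real.log n) ≤ g n s ∧
      (g n s : ℝ) ≤ 92 * n / (Real.log n) ^ ((1 : ℝ) / 12) :=
  g_bounds

end Pool.Agent.Results.MP_70146a_co.MatchingOrder
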