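import Mathlib

/-!
# Near-linear harmonic alternating paths

Separated red/blue point sets in convex position, `n` red points labelled in hull order,
`n` blue points labelled by an arbitrary permutation.  We show that every such set has a plane
harmonic alternating path with at least `n / (13000 log n)` edges.

Idea of the proof.  Index the red points by their position and read the blue points backwards along
the hull; plane alternating graphs are then the monotone ones.  For a slope `k` put the blue
point `b` at `x b = b + k * b / m + q b`, where `q b` is its label.  Averaging over the slopes gives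
a slope for which only `O(m log m)` pairs of blue points have the same `x`.  A greedy path
accepts a blue point when the sums used so far have one-sided density at most `1/4` around `x b` at
every scale; the maximal inequality bounds the number of rejected blue points.
-/

set_option autoImplicit false

namespace Pool.Agent.Results.MP_70146a_co.NearLinearPath

open Finset
open scoped Classical

/-- right one-sided maximal function of U exceeds 1/4 at x -/
def BadR (U : Finset ℤ) (x : ℤ) : Prop :=
  ∃ D : ℕ, D < 4 * (U ∩ Finset.Ico x (x + D)).card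
/-- left one-sided maximal function of U exceeds 1/4 at x -/
def BadL (U : Finset ℤ) (x : ℤ) : Prop :=
  ∃ D : ℕ, D < 4 * (U ∩ Finset.Ico (x - D) x).card

lemma BadR.mono {U V : Finset ℤ} (h : U ⊆ V) {x : ℤ} (hx : BadR U x) : BadR V x := by
  obtain ⟨D, hD⟩ := hx
  exact ⟨D, lt_of_lt_of_le hD (Nat.mul_le_mul_left _ (Finset.card_le_card
    (Finset.inter_subset_inter_right h)))⟩

lemma BadL.mono {U V : Finset ℤ} (h : U ⊆ V) {x : ℤ} (hx : BadL U x) : BadL V x := by
  obtain ⟨D, hD⟩ := hx
  exact ⟨D, lt_of_lt_of_le hD (Nat.mul_le_mul_left _ (Finset.card_le_card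
    (Finset.inter_subset_inter_right h)))⟩

/-- weight of the `e`-th edge of the zigzag path with blues `β` and reds `ρ` -/
def W (q β ρ : ℕ → ℕ) (e : ℕ) : ℕ := ρ (e / 2) + q (β ((e + 1) / 2))

/-- set of the weights of the path with `M` blue vertices -/
def Us (q β ρ : ℕ → ℕ) (M : ℕ) : Finset ℤ :=
  (Finset.range (2 * (M - 1))).image (fun e => ((W q β ρ e : ℕ) : ℤ))

lemma greedy (m : ℕ) (i q : ℕ → ℕ) (hi : ∀ b b', b < b' → i b + (b' - b) ≤ i b')
    (hq : ∀ b < m, ∀ b' < m, q b = q b' → b = b') :
    ∀ t, 1 ≤ t → t ≤ m → ∃ (M : ℕ) (β ρ : ℕ → ℕ), 1 ≤ M ∧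
      (∀ s < M, β s < t) ∧
      (∀ s, s + 1 < M → β s < β (s + 1)) ∧
      (∀ s, s + 1 < M → i (β s) ≤ ρ s ∧ ρ s < i (β (s + 1))) ∧
      (∀ e < 2 * (M - 1), ∀ e' < 2 * (M - 1), W q β ρ e = W q β ρ e' → e = e') ∧
      (∀ D : ℕ, 4 * (Us q β ρ M ∩ Finset.Ico ((i (β (M - 1)) + q (β (M - 1)) : ℕ) : ℤ)
          (((i (β (M - 1)) + q (β (M - 1)) : ℕ) : ℤ) + D)).card ≤ D + 4) ∧
      (∀ b < t, (∃ s < M, β s ≤ b ∧ b < β s + 3) ∨
        BadR (Us q β ρ M) ((i b + q b : ℕ) : ℤ) ∨ BadL (Us q β ρ M) ((i b + q b : ℕ) : ℤ)) := by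
  intro t
  induction t with
  | zero => intro h; omega
  | succ t ih =>
    intro _ htm
    rcases Nat.eq_zero_or_pos t with rfl | htpos
    · refine ⟨1, fun _ => 0, fun _ => 0, le_rfl, ?_, ?_, ?_, ?_, ?_, ?_⟩
      · intro s _; simp
      · intro s hs; omega
      · intro s hs; omega
      · intro e he; omega
      · intro D
        simp [Us]
      · intro b hb
        left
        exact ⟨0, by norm_num, by simp, by simpa using by omega⟩
    obtain ⟨M, β, ρ, hM, h1, h2, h3, h4, h5, h6⟩ := ih htpos (by omega)
    by_cases hc1 : t < β (M - 1) + 3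
    · refine ⟨M, β, ρ, hM, fun s hs => by have := h1 s hs; omega, h2, h3, h4, h5, ?_⟩
      intro b hb
      rcases Nat.lt_succ_iff_lt_or_eq.mp hb with hb' | rfl
      · exact h6 b hb'
      · left
        exact ⟨M - 1, by omega, (h1 (M - 1) (by omega)).le, hc1⟩
    by_cases hc2 : BadR (Us q β ρ M) ((i t + q t : ℕ) : ℤ) ∨
        BadL (Us q β ρ M) ((i t + q t : ℕ) : ℤ)
    · refine ⟨M, β, ρ, hM, fun s hs => by have := h1 s hs; omega, h2, h3, h4, h5, ?_⟩
      intro b hb
      rcases Nat.lt_succ_iff_lt_or_eq.mp hb with hb' | rfl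
      · exact h6 b hb'
      · right
        exact hc2
    push Not at hc2
    obtain ⟨hR, hL⟩ := hc2
    set last := β (M - 1) with hlast
    set U := Us q β ρ M with hU
    have hlt : last < t := h1 (M - 1) (by omega)
    have hD3 : i last + (t - last) ≤ i t := hi last t hlt
    obtain ⟨D0, hD0⟩ : ∃ D0, i t = i last + D0 := ⟨i t - i last, by omega⟩
    have hD0' : 3 ≤ D0 := by omega
    -- bounds for the numbers of occupied sums
    have c1 := h5 D0
    have c2 : 4 * (U ∩ Finset.Ico (((i t + q t : ℕ) : ℤ) - D0) ((i t + q t : ℕ) : ℤ)).card ≤ D0 := by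
      by_contra hcon
      push Not at hcon
      exact hL ⟨D0, hcon⟩
    -- choose r
    have hex : ∃ r ∈ Finset.Ico (i last) (i t), ((r + q last : ℕ) : ℤ) ∉ U ∧
        ((r + q t : ℕ) : ℤ) ∉ U := by
      by_contra hcon
      push Not at hcon
      have hcov : Finset.Ico (i last) (i t) ⊆
          ((U ∩ Finset.Ico ((i last + q last : ℕ) : ℤ) (((i last + q last : ℕ) : ℤ) + D0)).image
            (fun z : ℤ => (z - q last).toNat)) ∪
          ((U ∩ Finset.Ico (((i t + q t : ℕ) : ℤ) - D0) ((i t + q t : ℕ) : ℤ)).image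
            (fun z : ℤ => (z - q t).toNat)) := by
        intro r hr
        rw [Finset.mem_Ico] at hr
        rw [Finset.mem_union]
        by_cases hr1 : ((r + q last : ℕ) : ℤ) ∈ U
        · left
          rw [Finset.mem_image]
          refine ⟨((r + q last : ℕ) : ℤ), ?_, ?_⟩
          · rw [Finset.mem_inter, Finset.mem_Ico]
            refine ⟨hr1, ?_, ?_⟩ <;> push_cast <;> omega
          · push_cast
            omega
        · right
          have := hcon r (Finset.mem_Ico.mpr hr) hr1
          rw [Finset.mem_image]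
          refine ⟨((r + q t : ℕ) : ℤ), ?_, ?_⟩
          · rw [Finset.mem_inter, Finset.mem_Ico]
            refine ⟨this, ?_, ?_⟩ <;> push_cast <;> omega
          · push_cast
            omega
      have hc := Finset.card_le_card hcov
      have hc' := le_trans hc (Finset.card_union_le _ _)
      have hc1' := Finset.card_image_le (s := (U ∩ Finset.Ico ((i last + q last : ℕ) : ℤ)
        (((i last + q last : ℕ) : ℤ) + D0))) (f := (fun z : ℤ => (z - q last).toNat))
      have hc2' := Finset.card_image_le (s := (U ∩ Finset.Ico (((i t + q t : ℕ) : ℤ) - D0)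
        ((i t + q t : ℕ) : ℤ))) (f := (fun z : ℤ => (z - q t).toNat))
      rw [Nat.card_Ico] at hc'
      omega
    obtain ⟨r, hr, hr1, hr2⟩ := hex
    rw [Finset.mem_Ico] at hr
    have hqne : q last ≠ q t := by
      intro h
      have := hq last (by omega) t (by omega) h
      omega
    -- new path
    set β' := Function.update β M t with hβ'
    set ρ' := Function.update ρ (M - 1) r with hρ'
    have bβ : ∀ s < M, β' s = β s := fun s hs => by
      rw [hβ']; exact Function.update_of_ne (by omega) _ _
    have bβM : β' M = t := by rw [hβ']; exact Function.update_self _ _ _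
    have bρ : ∀ s < M - 1, ρ' s = ρ s := fun s hs => by
      rw [hρ']; exact Function.update_of_ne (by omega) _ _
    have bρM : ρ' (M - 1) = r := by rw [hρ']; exact Function.update_self _ _ _
    have hW : ∀ e < 2 * (M - 1), W q β' ρ' e = W q β ρ e := by
      intro e he
      unfold W
      rw [bρ (e / 2) (by omega), bβ ((e + 1) / 2) (by omega)]
    have hW1 : W q β' ρ' (2 * (M - 1)) = r + q last := by
      unfold W
      have e1 : 2 * (M - 1) / 2 = M - 1 := by omega
      have e2 : (2 * (M - 1) + 1) / 2 = M - 1 := by omega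
      rw [e1, e2, bρM, bβ (M - 1) (by omega)]
    have hW2 : W q β' ρ' (2 * (M - 1) + 1) = r + q t := by
      unfold W
      have e1 : (2 * (M - 1) + 1) / 2 = M - 1 := by omega
      have e2 : (2 * (M - 1) + 1 + 1) / 2 = M := by omega
      rw [e1, e2, bρM, bβM]
    have hmemU : ∀ e < 2 * (M - 1), ((W q β ρ e : ℕ) : ℤ) ∈ U := by
      intro e he
      rw [hU]
      unfold Us
      rw [Finset.mem_image]
      exact ⟨e, Finset.mem_range.mpr he, rfl⟩
    have hUsub : U ⊆ Us q β' ρ' (M + 1) := by
      intro z hz
      rw [hU] at hz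
      unfold Us at hz ⊢
      rw [Finset.mem_image] at hz ⊢
      obtain ⟨e, he, rfl⟩ := hz
      rw [Finset.mem_range] at he
      refine ⟨e, Finset.mem_range.mpr (by omega), ?_⟩
      rw [hW e he]
    refine ⟨M + 1, β', ρ', by omega, ?_, ?_, ?_, ?_, ?_, ?_⟩
    · intro s hs
      rcases Nat.lt_succ_iff_lt_or_eq.mp hs with hs' | rfl
      · rw [bβ s hs']
        have := h1 s hs'
        omega
      · rw [bβM]; omega
    · intro s hs
      rcases Nat.lt_succ_iff_lt_or_eq.mp hs with hs' | hs'
      · rw [bβ s (by omega), bβ (s + 1) hs']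
        exact h2 s hs'
      · rw [hs', bβM, bβ s (by omega)]
        exact h1 s (by omega)
    · intro s hs
      rcases Nat.lt_succ_iff_lt_or_eq.mp hs with hs' | hs'
      · rw [bβ s (by omega), bβ (s + 1) hs', bρ s (by omega)]
        exact h3 s hs'
      · have hsM : s = M - 1 := by omega
        rw [hs', bβM, hsM, bβ (M - 1) (by omega), bρM]
        exact ⟨hr.1, hr.2⟩
    · -- injectivity
      have key : ∀ e < 2 * (M + 1 - 1), ∀ e' < 2 * (M + 1 - 1), e < e' →
          W q β' ρ' e ≠ W q β' ρ' e' := by
        intro e he e' he' hee heq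
        rcases Nat.lt_or_ge e' (2 * (M - 1)) with hlt' | hge'
        · rw [hW e (by omega), hW e' hlt'] at heq
          have := h4 e (by omega) e' hlt' heq
          omega
        · have : e' = 2 * (M - 1) ∨ e' = 2 * (M - 1) + 1 := by omega
          rcases this with rfl | rfl
          · rw [hW e hee, hW1] at heq
            apply hr1
            rw [← heq]
            exact hmemU e hee
          · rcases Nat.lt_or_ge e (2 * (M - 1)) with hlt2 | hge2
            · rw [hW e hlt2, hW2] at heq
              apply hr2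
              rw [← heq]
              exact hmemU e hlt2
            · have : e = 2 * (M - 1) := by omega
              subst this
              rw [hW1, hW2] at heq
              apply hqne
              omega
      intro e he e' he' heq
      rcases lt_trichotomy e e' with h | h | h
      · exact absurd heq (key e he e' he' h)
      · exact h
      · exact absurd heq.symm (key e' he' e he h)
    · intro D
      have e0 : M + 1 - 1 = M := by omega
      rw [e0, bβM]
      have hsub : Us q β' ρ' (M + 1) ∩ Finset.Ico ((i t + q t : ℕ) : ℤ)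
          (((i t + q t : ℕ) : ℤ) + D) ⊆
          insert (((r + q last : ℕ) : ℤ)) (U ∩ Finset.Ico ((i t + q t : ℕ) : ℤ)
          (((i t + q t : ℕ) : ℤ) + D)) := by
        intro z hz
        rw [Finset.mem_inter] at hz
        obtain ⟨hz1, hz2⟩ := hz
        unfold Us at hz1
        rw [Finset.mem_image] at hz1
        obtain ⟨e, he, rfl⟩ := hz1
        rw [Finset.mem_range] at he
        rw [Finset.mem_insert]
        rcases Nat.lt_or_ge e (2 * (M - 1)) with hlt' | hge'
        · right
          rw [Finset.mem_inter]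
          rw [hW e hlt'] at hz2 ⊢
          exact ⟨hmemU e hlt', hz2⟩
        · have : e = 2 * (M - 1) ∨ e = 2 * (M - 1) + 1 := by omega
          rcases this with rfl | rfl
          · left
            rw [hW1]
          · exfalso
            rw [hW2, Finset.mem_Ico] at hz2
            have := hz2.1
            push_cast at this
            omega
      have hcd : 4 * (U ∩ Finset.Ico ((i t + q t : ℕ) : ℤ)
          (((i t + q t : ℕ) : ℤ) + D)).card ≤ D := by
        by_contra hcon
        push Not at hcon
        exact hR ⟨D, hcon⟩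
      have := Finset.card_le_card hsub
      have h7 := Finset.card_insert_le (((r + q last : ℕ) : ℤ)) (U ∩ Finset.Ico ((i t + q t : ℕ) : ℤ)
          (((i t + q t : ℕ) : ℤ) + D))
      omega
    · intro b hb
      rcases Nat.lt_succ_iff_lt_or_eq.mp hb with hb' | rfl
      · rcases h6 b hb' with ⟨s, hs, hs1, hs2⟩ | h | h
        · left
          exact ⟨s, by omega, by rw [bβ s hs]; exact hs1, by rw [bβ s hs]; exact hs2⟩
        · right; left; exact h.mono hUsub
        · right; right; exact h.mono hUsub
      · left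
        exact ⟨M, by omega, by rw [bβM], by rw [bβM]; omega⟩

/-- one-sided maximal inequality -/
lemma maximal_right_aux (U : Finset ℤ) : ∀ (k : ℕ) (a : ℤ),
    ((Finset.Ico a (a + k)).filter (BadR U)).card
      ≤ 4 * (U.filter (fun z => a ≤ z)).card := by
  intro k
  induction k using Nat.strong_induction_on with
  | _ k ih =>
    intro a
    rcases Nat.eq_zero_or_pos k with rfl | hk
    · simp
    by_cases ha : BadR U a
    · obtain ⟨D, hD⟩ := ha
      have hD1 : 1 ≤ D := by
        by_contra h
        have : D = 0 := by omega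
        subst this
        simp at hD
      have hsub : (Finset.Ico a (a + k)).filter (BadR U) ⊆
          Finset.Ico a (a + D) ∪ (Finset.Ico (a + D) (a + D + ((k - D : ℕ) : ℤ))).filter
          (BadR U) := by
        intro x hx
        simp only [Finset.mem_filter, Finset.mem_Ico, Finset.mem_union] at hx ⊢
        obtain ⟨⟨h1, h2⟩, h3⟩ := hx
        by_cases hx2 : x < a + D
        · left; exact ⟨h1, hx2⟩
        · right
          refine ⟨⟨by omega, by omega⟩, h3⟩
      have h1 : ((Finset.Ico (a + D) (a + D + ((k - D : ℕ) : ℤ))).filter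
          (BadR U)).card ≤ 4 * (U.filter (fun z => a + D ≤ z)).card := by
        rcases Nat.lt_or_ge (k - D) k with h | h
        · exact ih (k - D) h (a + D)
        · omega
      have h2 : (U ∩ Finset.Ico a (a + D)).card + (U.filter (fun z => a + D ≤ z)).card
          ≤ (U.filter (fun z => a ≤ z)).card := by
        rw [← Finset.card_union_of_disjoint]
        · apply Finset.card_le_card
          intro z hz
          simp only [Finset.mem_union, Finset.mem_inter, Finset.mem_Ico, Finset.mem_filter] at hz ⊢
          rcases hz with ⟨hz1, hz2, hz3⟩ | ⟨hz1, hz2⟩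
          · exact ⟨hz1, hz2⟩
          · exact ⟨hz1, by omega⟩
        · rw [Finset.disjoint_left]
          intro z hz hz'
          simp only [Finset.mem_inter, Finset.mem_Ico, Finset.mem_filter] at hz hz'
          omega
      calc _ ≤ (Finset.Ico a (a + D) ∪ (Finset.Ico (a + D) (a + D + ((k - D : ℕ) : ℤ))).filter
          (BadR U)).card := Finset.card_le_card hsub
        _ ≤ (Finset.Ico a (a + D)).card + _ := Finset.card_union_le _ _
        _ ≤ D + 4 * (U.filter (fun z => a + D ≤ z)).card := by
            have : (Finset.Ico a (a + D)).card = D := by simp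
            rw [this]
            exact Nat.add_le_add_left h1 _
        _ ≤ 4 * (U.filter (fun z => a ≤ z)).card := by omega
    · have hsub : (Finset.Ico a (a + k)).filter (BadR U) ⊆
          (Finset.Ico (a + 1) (a + 1 + ((k - 1 : ℕ) : ℤ))).filter (BadR U) := by
        intro x hx
        simp only [Finset.mem_filter, Finset.mem_Ico] at hx ⊢
        obtain ⟨⟨h1, h2⟩, h3⟩ := hx
        have : x ≠ a := by
          rintro rfl
          exact ha h3
        refine ⟨⟨by omega, by omega⟩, h3⟩
      have h1 := ih (k - 1) (by omega) (a + 1)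
      have h2 : (U.filter (fun z => a + 1 ≤ z)).card ≤ (U.filter (fun z => a ≤ z)).card := by
        apply Finset.card_le_card
        intro z hz
        simp only [Finset.mem_filter] at hz ⊢
        exact ⟨hz.1, by omega⟩
      calc _ ≤ _ := Finset.card_le_card hsub
        _ ≤ _ := h1
        _ ≤ _ := by omega

lemma maximal_right (U S : Finset ℤ) : (S.filter (BadR U)).card ≤ 4 * U.card := by
  rcases S.eq_empty_or_nonempty with rfl | hS
  · simp
  set a := S.min' hS with ha
  set b := S.max' hS with hb
  have hab : a ≤ b := by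
    have := Finset.min'_le S b (Finset.max'_mem S hS)
    exact this
  have h := maximal_right_aux U (b - a + 1).toNat a
  have h1 : S ⊆ Finset.Ico a (a + ((b - a + 1).toNat : ℤ)) := by
    intro x hx
    simp only [Finset.mem_Ico]
    constructor
    · exact Finset.min'_le S x hx
    · have : ((b - a + 1).toNat : ℤ) = b - a + 1 := Int.toNat_of_nonneg (by omega)
      rw [this]
      have h3 : x ≤ b := Finset.le_max' S x hx
      omega
  calc _ ≤ _ := Finset.card_le_card (Finset.filter_subset_filter _ h1)
    _ ≤ _ := h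
    _ ≤ _ := Nat.mul_le_mul_left _ (Finset.card_filter_le _ _)

lemma maximal_left (U S : Finset ℤ) : (S.filter (BadL U)).card ≤ 4 * U.card := by
  have h := maximal_right (U.image (fun z => -z)) (S.image (fun x => 1 - x))
  have hc : (U.image (fun z => -z)).card = U.card :=
    Finset.card_image_of_injective _ neg_injective
  rw [hc] at h
  refine le_trans ?_ h
  have hinj : Function.Injective (fun x : ℤ => 1 - x) := fun x y hxy => by
    simp only [sub_right_inj] at hxy; exact hxy
  rw [← Finset.card_image_of_injective (S.filter _) hinj]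
  apply Finset.card_le_card
  intro y hy
  simp only [Finset.mem_image, Finset.mem_filter] at hy ⊢
  obtain ⟨x, ⟨hxS, D, hD⟩, rfl⟩ := hy
  refine ⟨⟨x, hxS, rfl⟩, D, ?_⟩
  refine lt_of_lt_of_le hD (Nat.mul_le_mul_left _ ?_)
  rw [← Finset.card_image_of_injective (U ∩ Finset.Ico (x - D) x) neg_injective]
  apply Finset.card_le_card
  intro z hz
  simp only [Finset.mem_image, Finset.mem_inter, Finset.mem_Ico] at hz ⊢
  obtain ⟨w, ⟨hw, hw1, hw2⟩, rfl⟩ := hz
  exact ⟨⟨w, hw, rfl⟩, by omega, by omega⟩

/-- position of the sum for blue `b` along the slope `k` -/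
def X (m : ℕ) (q : ℕ → ℕ) (k b : ℕ) : ℕ := b + k * b / m + q b

lemma count_k_aux (m : ℕ) (hm : 0 < m) (q : ℕ → ℕ) (b b' : ℕ) (hb : b < b') (hb' : b' < m) :
    ((Finset.range m).filter (fun k => X m q k b = X m q k b')).card * (b' - b) ≤ 3 * m := by
  set A := (Finset.range m).filter (fun k => X m q k b = X m q k b') with hA
  rcases A.eq_empty_or_nonempty with h | h
  · rw [h]; simp
  have h1 := Finset.min'_mem A h
  have h2 := Finset.max'_mem A h
  set k1 := A.min' h with hk1
  set k2 := A.max' h with hk2
  have hsub : A ⊆ Finset.Icc k1 k2 := by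
    intro x hx
    simp only [Finset.mem_Icc]
    exact ⟨Finset.min'_le A x hx, Finset.le_max' A x hx⟩
  have hcard : A.card ≤ k2 + 1 - k1 := by
    have := Finset.card_le_card hsub
    simpa using this
  have hk12 : k1 ≤ k2 := Finset.min'_le A k2 h2
  rw [hA, Finset.mem_filter] at h1 h2
  obtain ⟨-, e1⟩ := h1
  obtain ⟨-, e2⟩ := h2
  unfold X at e1 e2
  have f1 := Nat.div_add_mod (k1 * b) m
  have f2 := Nat.div_add_mod (k1 * b') m
  have f3 := Nat.div_add_mod (k2 * b) m
  have f4 := Nat.div_add_mod (k2 * b') m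
  have g1 := Nat.mod_lt (k1 * b) hm
  have g2 := Nat.mod_lt (k1 * b') hm
  have g3 := Nat.mod_lt (k2 * b) hm
  have g4 := Nat.mod_lt (k2 * b') hm
  set u1 := k1 * b / m
  set u2 := k1 * b' / m
  set u3 := k2 * b / m
  set u4 := k2 * b' / m
  have key : (k2 - k1) * (b' - b) < 2 * m := by
    zify [hk12, hb.le]
    zify at f1 f2 f3 f4 g1 g2 g3 g4 e1 e2
    have hE : (u2 : ℤ) - u1 = u4 - u3 := by linarith
    have hE' : (m : ℤ) * u2 - m * u1 = m * u4 - m * u3 := by
      rw [← mul_sub, ← mul_sub, hE]
    have p1 : (0 : ℤ) ≤ ((k1 * b % m : ℕ) : ℤ) := by positivity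
    have p2 : (0 : ℤ) ≤ ((k1 * b' % m : ℕ) : ℤ) := by positivity
    have p3 : (0 : ℤ) ≤ ((k2 * b % m : ℕ) : ℤ) := by positivity
    have p4 : (0 : ℤ) ≤ ((k2 * b' % m : ℕ) : ℤ) := by positivity
    push_cast at p1 p2 p3 p4
    nlinarith
  have hd : 1 ≤ b' - b := by omega
  have hle : A.card ≤ (k2 - k1) + 1 := by omega
  calc A.card * (b' - b) ≤ ((k2 - k1) + 1) * (b' - b) := Nat.mul_le_mul_right _ hle
    _ = (k2 - k1) * (b' - b) + (b' - b) := by ring
    _ ≤ 3 * m := by omega

/-- number of coincidences along slope `k` -/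
def pairs (m : ℕ) (q : ℕ → ℕ) (k : ℕ) : ℕ :=
  ((Finset.range m ×ˢ Finset.range m).filter (fun z => X m q k z.1 = X m q k z.2)).card

lemma sum_inv_left (m b : ℕ) (hb : b < m) :
    ∑ b' ∈ Finset.range b, (1 : ℝ) / ((b : ℝ) - b') ≤ 1 + Real.log m := by
  have h1 : ∑ b' ∈ Finset.range b, (1 : ℝ) / ((b : ℝ) - b')
      = ∑ j ∈ Finset.range b, (1 : ℝ) / ((j : ℝ) + 1) := by
    rw [← Finset.sum_range_reflect]
    apply Finset.sum_congr rfl
    intro j hj
    rw [Finset.mem_range] at hj
    have : ((b - 1 - j : ℕ) : ℝ) = (b : ℝ) - 1 - j := by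
      rw [Nat.sub_sub, Nat.cast_sub (by omega)]
      push_cast; ring
    rw [this]
    congr 1
    ring
  rw [h1]
  have h2 : ∑ j ∈ Finset.range b, (1 : ℝ) / ((j : ℝ) + 1) ≤
      ∑ j ∈ Finset.range m, (1 : ℝ) / ((j : ℝ) + 1) := by
    apply Finset.sum_le_sum_of_subset_of_nonneg
    · intro x hx
      rw [Finset.mem_range] at hx ⊢
      omega
    · intro i _ _
      positivity
  have h3 := harmonic_le_one_add_log m
  have h4 : ((harmonic m : ℚ) : ℝ) = ∑ j ∈ Finset.range m, (1 : ℝ) / ((j : ℝ) + 1) := by
    unfold harmonic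
    push_cast
    apply Finset.sum_congr rfl
    intro i _
    rw [one_div]
  rw [h4] at h3
  linarith

lemma sum_inv_right (m b : ℕ) (hb : b < m) :
    ∑ b' ∈ Finset.Ico (b + 1) m, (1 : ℝ) / ((b' : ℝ) - b) ≤ 1 + Real.log m := by
  have h1 : ∑ b' ∈ Finset.Ico (b + 1) m, (1 : ℝ) / ((b' : ℝ) - b)
      = ∑ j ∈ Finset.range (m - (b + 1)), (1 : ℝ) / ((j : ℝ) + 1) := by
    rw [Finset.sum_Ico_eq_sum_range]
    apply Finset.sum_congr rfl
    intro j hj
    push_cast
    congr 1
    ring
  rw [h1]
  have h2 : ∑ j ∈ Finset.range (m - (b + 1)), (1 : ℝ) / ((j : ℝ) + 1) ≤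
      ∑ j ∈ Finset.range m, (1 : ℝ) / ((j : ℝ) + 1) := by
    apply Finset.sum_le_sum_of_subset_of_nonneg
    · intro x hx
      rw [Finset.mem_range] at hx ⊢
      omega
    · intro i _ _
      positivity
  have h3 := harmonic_le_one_add_log m
  have h4 : ((harmonic m : ℚ) : ℝ) = ∑ j ∈ Finset.range m, (1 : ℝ) / ((j : ℝ) + 1) := by
    unfold harmonic
    push_cast
    apply Finset.sum_congr rfl
    intro i _
    rw [one_div]
  rw [h4] at h3
  linarith

lemma exists_good_slope (m : ℕ) (hm : 0 < m) (q : ℕ → ℕ) :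
    ∃ k < m, (pairs m q k : ℝ) ≤ m * (7 + 6 * Real.log m) := by
  have hm' : (0 : ℝ) < m := by exact_mod_cast hm
  -- total
  have htot : ∑ k ∈ Finset.range m, (pairs m q k : ℝ)
      = ∑ z ∈ Finset.range m ×ˢ Finset.range m,
        (((Finset.range m).filter (fun k => X m q k z.1 = X m q k z.2)).card : ℝ) := by
    have : ∀ k, (pairs m q k : ℝ) = ∑ z ∈ Finset.range m ×ˢ Finset.range m,
        if X m q k z.1 = X m q k z.2 then (1 : ℝ) else 0 := by
      intro k
      unfold pairs
      rw [Finset.card_filter]
      push_cast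
      rfl
    simp_rw [this]
    rw [Finset.sum_comm]
    apply Finset.sum_congr rfl
    intro z _
    rw [Finset.card_filter]
    push_cast
    rfl
  have hbound : ∀ b ∈ Finset.range m, ∑ b' ∈ Finset.range m,
      (((Finset.range m).filter (fun k => X m q k b = X m q k b')).card : ℝ)
      ≤ m * (7 + 6 * Real.log m) := by
    intro b hb
    rw [Finset.mem_range] at hb
    have hsplit : Finset.range m = Finset.range b ∪ ({b} ∪ Finset.Ico (b + 1) m) := by
      ext x
      simp only [Finset.mem_range, Finset.mem_union, Finset.mem_singleton, Finset.mem_Ico]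
      omega
    have hd1 : Disjoint (Finset.range b) ({b} ∪ Finset.Ico (b + 1) m) := by
      rw [Finset.disjoint_left]
      intro x hx hx'
      simp only [Finset.mem_range, Finset.mem_union, Finset.mem_singleton, Finset.mem_Ico] at hx hx'
      omega
    have hd2 : Disjoint ({b} : Finset ℕ) (Finset.Ico (b + 1) m) := by
      rw [Finset.disjoint_left]
      intro x hx hx'
      simp only [Finset.mem_singleton, Finset.mem_Ico] at hx hx'
      omega
    have hs : ∑ b' ∈ Finset.range m,
        (((Finset.range m).filter (fun k => X m q k b = X m q k b')).card : ℝ)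
        = ∑ b' ∈ Finset.range b,
        (((Finset.range m).filter (fun k => X m q k b = X m q k b')).card : ℝ)
        + ((((Finset.range m).filter (fun k => X m q k b = X m q k b)).card : ℝ)
        + ∑ b' ∈ Finset.Ico (b + 1) m,
        (((Finset.range m).filter (fun k => X m q k b = X m q k b')).card : ℝ)) := by
      conv_lhs => rw [hsplit]
      rw [Finset.sum_union hd1, Finset.sum_union hd2, Finset.sum_singleton]
      rw [← hsplit]
    rw [hs]
    have e1 : ∑ b' ∈ Finset.range b,
        (((Finset.range m).filter (fun k => X m q k b = X m q k b')).card : ℝ)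
        ≤ 3 * m * (1 + Real.log m) := by
      calc _ ≤ ∑ b' ∈ Finset.range b, 3 * (m : ℝ) * ((1 : ℝ) / ((b : ℝ) - b')) := by
            apply Finset.sum_le_sum
            intro b' hb'
            rw [Finset.mem_range] at hb'
            have h := count_k_aux m hm q b' b hb' hb
            have h' : ((((Finset.range m).filter (fun k => X m q k b' = X m q k b)).card : ℝ))
                * ((b : ℝ) - b') ≤ 3 * m := by
              have : ((b - b' : ℕ) : ℝ) = (b : ℝ) - b' := Nat.cast_sub hb'.le
              rw [← this]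
              exact_mod_cast h
            have hpos : (0 : ℝ) < (b : ℝ) - b' := by
              have : (b' : ℝ) < b := by exact_mod_cast hb'
              linarith
            have hcomm : ((Finset.range m).filter (fun k => X m q k b = X m q k b'))
                = ((Finset.range m).filter (fun k => X m q k b' = X m q k b)) := by
              apply Finset.filter_congr
              intro x _
              exact ⟨fun h => h.symm, fun h => h.symm⟩
            rw [hcomm]
            rw [mul_one_div, le_div_iff₀ hpos]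
            exact h'
        _ = 3 * m * ∑ b' ∈ Finset.range b, ((1 : ℝ) / ((b : ℝ) - b')) := by
            rw [Finset.mul_sum]
        _ ≤ _ := by
            apply mul_le_mul_of_nonneg_left (sum_inv_left m b hb)
            positivity
    have e2 : ∑ b' ∈ Finset.Ico (b + 1) m,
        (((Finset.range m).filter (fun k => X m q k b = X m q k b')).card : ℝ)
        ≤ 3 * m * (1 + Real.log m) := by
      calc _ ≤ ∑ b' ∈ Finset.Ico (b + 1) m, 3 * (m : ℝ) * ((1 : ℝ) / ((b' : ℝ) - b)) := by
            apply Finset.sum_le_sum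
            intro b' hb'
            rw [Finset.mem_Ico] at hb'
            have h := count_k_aux m hm q b b' (by omega) hb'.2
            have h' : ((((Finset.range m).filter (fun k => X m q k b = X m q k b')).card : ℝ))
                * ((b' : ℝ) - b) ≤ 3 * m := by
              have : ((b' - b : ℕ) : ℝ) = (b' : ℝ) - b := Nat.cast_sub (by omega)
              rw [← this]
              exact_mod_cast h
            have hpos : (0 : ℝ) < (b' : ℝ) - b := by
              have : (b : ℝ) < b' := by exact_mod_cast (show b < b' by omega)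
              linarith
            rw [mul_one_div, le_div_iff₀ hpos]
            exact h'
        _ = 3 * m * ∑ b' ∈ Finset.Ico (b + 1) m, ((1 : ℝ) / ((b' : ℝ) - b)) := by
            rw [Finset.mul_sum]
        _ ≤ _ := by
            apply mul_le_mul_of_nonneg_left (sum_inv_right m b hb)
            positivity
    have e3 : (((Finset.range m).filter (fun k => X m q k b = X m q k b)).card : ℝ) = m := by
      simp
    rw [e3]
    nlinarith
  have hsum : ∑ k ∈ Finset.range m, (pairs m q k : ℝ)
      ≤ ∑ k ∈ Finset.range m, ((m : ℝ) * (7 + 6 * Real.log m)) := by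
    rw [htot, Finset.sum_product]
    exact Finset.sum_le_sum hbound
  obtain ⟨k, hk, hk'⟩ := Finset.exists_le_of_sum_le ⟨0, Finset.mem_range.mpr hm⟩ hsum
  exact ⟨k, Finset.mem_range.mp hk, hk'⟩


lemma card_sq_le_pairs (m : ℕ) (x : ℕ → ℕ) (F : Finset ℕ) (hF : F ⊆ Finset.range m) :
    F.card ^ 2 ≤ (F.image x).card *
      ((Finset.range m ×ˢ Finset.range m).filter (fun z => x z.1 = x z.2)).card := by
  have h1 : F.card = ∑ z ∈ F.image x, (F.filter (fun b => x b = z)).card :=
    Finset.card_eq_sum_card_fiberwise (fun b hb => Finset.mem_image_of_mem x hb)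
  have h2 : ∑ z ∈ F.image x, (F.filter (fun b => x b = z)).card ^ 2 ≤
      ((Finset.range m ×ˢ Finset.range m).filter (fun z => x z.1 = x z.2)).card := by
    have h3 : ((F ×ˢ F).filter (fun z => x z.1 = x z.2)).card
        = ∑ z ∈ F.image x, (F.filter (fun b => x b = z)).card ^ 2 := by
      rw [Finset.card_eq_sum_card_fiberwise (f := fun p : ℕ × ℕ => x p.1) (t := F.image x)]
      · apply Finset.sum_congr rfl
        intro z _
        rw [sq, ← Finset.card_product]
        congr 1
        ext p
        simp only [Finset.mem_filter, Finset.mem_product]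
        constructor
        · rintro ⟨⟨⟨a, b⟩, c⟩, d⟩
          exact ⟨⟨a, d⟩, ⟨b, by rw [← c]; exact d⟩⟩
        · rintro ⟨⟨a, b⟩, c, d⟩
          exact ⟨⟨⟨a, c⟩, by rw [b, d]⟩, b⟩
      · intro p hp
        simp only [Finset.coe_filter, Finset.mem_product, Set.mem_ofPred_eq] at hp
        exact Finset.mem_image_of_mem x hp.1.1
    rw [← h3]
    apply Finset.card_le_card
    apply Finset.filter_subset_filter
    exact Finset.product_subset_product hF hF
  calc F.card ^ 2 = (∑ z ∈ F.image x, (F.filter (fun b => x b = z)).card) ^ 2 := by rw [← h1]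
    _ ≤ (F.image x).card * ∑ z ∈ F.image x, (F.filter (fun b => x b = z)).card ^ 2 :=
        sq_sum_le_card_mul_sum_sq
    _ ≤ _ := Nat.mul_le_mul_left _ h2

/-- The combinatorial lower bound. -/
theorem comb_lower (m : ℕ) (hm : 0 < m) (q : ℕ → ℕ)
    (hq : ∀ b < m, ∀ b' < m, q b = q b' → b = b') :
    ∃ (M : ℕ) (β ρ : ℕ → ℕ), 1 ≤ M ∧
      (∀ s < M, β s < m) ∧
      (∀ s, s + 1 < M → β s < β (s + 1)) ∧
      (∀ s, s + 1 < M → ρ s < 2 * m) ∧
      (∀ s, s + 2 < M → ρ s < ρ (s + 1)) ∧
      (∀ e < 2 * (M - 1), ∀ e' < 2 * (M - 1), W q β ρ e = W q β ρ e' → e = e') ∧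
      (m : ℝ) ≤ 64 * (7 + 6 * Real.log m) * M := by
  obtain ⟨k, hk, hpairs⟩ := exists_good_slope m hm q
  set i : ℕ → ℕ := fun b => b + k * b / m with hi
  have hmono : ∀ b b', b < b' → i b + (b' - b) ≤ i b' := by
    intro b b' hbb
    simp only [hi]
    have : k * b / m ≤ k * b' / m := Nat.div_le_div_right (Nat.mul_le_mul_left _ hbb.le)
    omega
  obtain ⟨M, β, ρ, hM, h1, h2, h3, h4, h5, h6⟩ := greedy m i q hmono hq m hm le_rfl
  refine ⟨M, β, ρ, hM, h1, h2, ?_, ?_, h4, ?_⟩
  · intro s hs
    have := (h3 s hs).2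
    have hb := h1 (s + 1) hs
    have : k * β (s + 1) / m ≤ β (s + 1) := by
      apply Nat.div_le_of_le_mul
      exact Nat.mul_le_mul_right _ hk.le
    simp only [hi] at *
    omega
  · intro s hs
    have a := (h3 s (by omega)).2
    have b := (h3 (s + 1) (by omega)).1
    omega
  · -- counting
    set U := Us q β ρ M with hU
    have hUcard : U.card ≤ 2 * (M - 1) := by
      rw [hU]
      unfold Us
      refine le_trans Finset.card_image_le ?_
      simp
    set F := (Finset.range m).filter (fun b => BadR U ((i b + q b : ℕ) : ℤ) ∨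
      BadL U ((i b + q b : ℕ) : ℤ)) with hF
    have hcov : Finset.range m ⊆ (Finset.range M).biUnion
        (fun s => Finset.Ico (β s) (β s + 3)) ∪ F := by
      intro b hb
      rw [Finset.mem_range] at hb
      rw [Finset.mem_union]
      rcases h6 b hb with ⟨s, hs, hs1, hs2⟩ | h
      · left
        rw [Finset.mem_biUnion]
        exact ⟨s, Finset.mem_range.mpr hs, Finset.mem_Ico.mpr ⟨hs1, hs2⟩⟩
      · right
        rw [hF, Finset.mem_filter]
        exact ⟨Finset.mem_range.mpr hb, h⟩
    have hc1 : m ≤ 3 * M + F.card := by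
      have a := Finset.card_le_card hcov
      have b := Finset.card_union_le ((Finset.range M).biUnion
        (fun s => Finset.Ico (β s) (β s + 3))) F
      have c : ((Finset.range M).biUnion (fun s => Finset.Ico (β s) (β s + 3))).card ≤
          M * 3 := by
        have := Finset.card_biUnion_le_card_mul (Finset.range M)
          (fun s => Finset.Ico (β s) (β s + 3)) 3 (by intro s _; simp)
        simpa using this
      rw [Finset.card_range] at a
      omega
    have hT : (F.image (fun b => i b + q b)).card ≤ 16 * (M - 1) := by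
      have e1 : (F.image (fun b => i b + q b)).card =
          ((F.image (fun b => i b + q b)).image (fun z : ℕ => (z : ℤ))).card := by
        rw [Finset.card_image_of_injective _ Nat.cast_injective]
      rw [e1]
      set S := (F.image (fun b => i b + q b)).image (fun z : ℕ => (z : ℤ)) with hS
      have e2 : S ⊆ S.filter (BadR U) ∪ S.filter (BadL U) := by
        intro z hz
        have hz' := hz
        rw [hS, Finset.mem_image] at hz'
        obtain ⟨y, hy, rfl⟩ := hz'
        rw [Finset.mem_image] at hy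
        obtain ⟨b, hb, rfl⟩ := hy
        rw [hF, Finset.mem_filter] at hb
        rw [Finset.mem_union, Finset.mem_filter, Finset.mem_filter]
        rcases hb.2 with h | h
        · left; exact ⟨hz, h⟩
        · right; exact ⟨hz, h⟩
      have a := Finset.card_le_card e2
      have b := Finset.card_union_le (S.filter (BadR U)) (S.filter (BadL U))
      have c := maximal_right U S
      have d := maximal_left U S
      omega
    have hFsub : F ⊆ Finset.range m := Finset.filter_subset _ _
    have hcs := card_sq_le_pairs m (fun b => i b + q b) F hFsub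
    have hpe : ((Finset.range m ×ˢ Finset.range m).filter
        (fun z => i z.1 + q z.1 = i z.2 + q z.2)).card = pairs m q k := rfl
    have hcs' : F.card ^ 2 ≤ 16 * (M - 1) * pairs m q k := by
      refine le_trans hcs ?_
      exact Nat.mul_le_mul hT (le_of_eq hpe)
    have hlog : 0 ≤ Real.log m := Real.log_nonneg (by exact_mod_cast hm)
    set P := 7 + 6 * Real.log m with hP
    have hP7 : 7 ≤ P := by rw [hP]; linarith
    have hmR : (0 : ℝ) < m := by exact_mod_cast hm
    have hMR : (1 : ℝ) ≤ M := by exact_mod_cast hM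
    have hc1R : (m : ℝ) ≤ 3 * M + F.card := by exact_mod_cast hc1
    have hc2R : (F.card : ℝ) ^ 2 ≤ 16 * M * (m * P) := by
      have a : ((F.card ^ 2 : ℕ) : ℝ) ≤ ((16 * (M - 1) * pairs m q k : ℕ) : ℝ) := by
        exact_mod_cast hcs'
      push_cast [hM] at a
      calc (F.card : ℝ) ^ 2 ≤ 16 * ((M : ℝ) - 1) * pairs m q k := a
        _ ≤ 16 * (M : ℝ) * pairs m q k := by
            apply mul_le_mul_of_nonneg_right _ (by positivity)
            linarith
        _ ≤ 16 * M * (m * P) := by
            apply mul_le_mul_of_nonneg_left hpairs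
            positivity
    by_contra hcon
    push Not at hcon
    -- m > 64 P M
    have a1 : (3 : ℝ) * M ≤ m / 2 := by nlinarith
    have a2 : (m : ℝ) / 2 ≤ F.card := by linarith
    have a3 : (m : ℝ) ^ 2 / 4 ≤ (F.card : ℝ) ^ 2 := by nlinarith
    have a4 : (m : ℝ) ^ 2 / 4 ≤ 16 * M * (m * P) := le_trans a3 hc2R
    have a5 : (m : ℝ) * m ≤ m * (64 * P * M) := by nlinarith
    have a6 : (m : ℝ) ≤ 64 * P * M := le_of_mul_le_mul_left a5 hmR
    linarith

/-- twice the signed area of the triangle `a b c` -/
def orient (a b c : ℝ × ℝ) : ℝ :=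
  (b.1 - a.1) * (c.2 - a.2) - (b.2 - a.2) * (c.1 - a.1)

/-- `2n` distinct points `pt 0, ..., pt (2n-1)` that are, in this cyclic order, the vertices of a
convex polygon (all triples taken in this order have the same orientation). The first `n` of them
are red and the last `n` are blue (so a line separates the two colour classes). The blue points
carry an arbitrary permutation of the labels `0, ..., n-1`. -/
structure Config (n : ℕ) where
  pt : Fin (2 * n) → ℝ × ℝ
  inj : Function.Injective pt
  convex : (∀ i j k, i < j → j < k → 0 < orient (pt i) (pt j) (pt k)) ∨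
    (∀ i j k, i < j → j < k → orient (pt i) (pt j) (pt k) < 0)
  blueLabel : Equiv.Perm (Fin n)

/-- the first `n` points are red -/
def IsRed {n : ℕ} (x : Fin (2 * n)) : Prop := x.val < n

/-- The label of a point: the red points carry, in their order along the hull, the labels
`s, s+1, ..., n-1, 0, ..., s-1` (so `0, 1, ..., n-1` if `s = 0`). -/
def Config.label {n : ℕ} (P : Config n) (s : ℕ) (x : Fin (2 * n)) : ℕ :=
  if h : x.val < n then (x.val + s) % n
  else (P.blueLabel ⟨x.val - n, by have := x.isLt; omega⟩).val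

/-- `v 0, v 1, ..., v l` is a plane harmonic alternating path with `l` edges. -/
structure IsPath {n : ℕ} (P : Config n) (s l : ℕ) (v : ℕ → Fin (2 * n)) : Prop where
  simple : ∀ a ≤ l, ∀ b ≤ l, v a = v b → a = b
  alternating : ∀ a < l, (IsRed (v a) ↔ ¬ IsRed (v (a + 1)))
  plane : ∀ a < l, ∀ b < l, a ≠ b →
    ∀ z ∈ segment ℝ (P.pt (v a)) (P.pt (v (a + 1))) ∩ segment ℝ (P.pt (v b)) (P.pt (v (b + 1))),
      (z = P.pt (v a) ∨ z = P.pt (v (a + 1))) ∧ (z = P.pt (v b) ∨ z = P.pt (v (b + 1)))
  harmonic : ∀ a < l, ∀ b < l, a ≠ b →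
    P.label s (v a) + P.label s (v (a + 1)) ≠ P.label s (v b) + P.label s (v (b + 1))

/-- the largest number of edges of a plane harmonic alternating path -/
noncomputable def Config.maxPath {n : ℕ} (P : Config n) (s : ℕ) : ℕ :=
  sSup {l | ∃ v : ℕ → Fin (2 * n), IsPath P s l v}

/-- the number of edges guaranteed in every configuration -/
noncomputable def f (n s : ℕ) : ℕ := sInf (Set.range fun P : Config n => P.maxPath s)

lemma nested {n : ℕ} (pt : Fin (2 * n) → ℝ × ℝ) (ε : ℝ)
    (hε : ∀ i j k, i < j → j < k → 0 < ε * orient (pt i) (pt j) (pt k))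
    (x x' y' y : Fin (2 * n)) (h1 : x < x') (h2 : x' < y') (h3 : y' < y) (z : ℝ × ℝ)
    (hz : z ∈ segment ℝ (pt x) (pt y)) (hz' : z ∈ segment ℝ (pt x') (pt y')) : False := by
  rw [segment_eq_image] at hz hz'
  obtain ⟨t, ⟨ht0, ht1⟩, rfl⟩ := hz
  obtain ⟨t', ⟨ht0', ht1'⟩, he⟩ := hz'
  have a := hε x x' y h1 (h2.trans h3)
  have b := hε x y' y (h1.trans h2) h3
  have e1 := congrArg Prod.fst he
  have e2 := congrArg Prod.snd he
  simp only [Prod.fst_add, Prod.smul_fst, smul_eq_mul, Prod.snd_add, Prod.smul_snd] at e1 e2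
  unfold orient at a b
  have key : (1 - t') * (ε * (((pt x').1 - (pt x).1) * ((pt y).2 - (pt x).2) -
      ((pt x').2 - (pt x).2) * ((pt y).1 - (pt x).1))) +
      t' * (ε * (((pt y').1 - (pt x).1) * ((pt y).2 - (pt x).2) -
      ((pt y').2 - (pt x).2) * ((pt y).1 - (pt x).1))) = 0 := by
    have : (1 - t') * (ε * (((pt x').1 - (pt x).1) * ((pt y).2 - (pt x).2) -
      ((pt x').2 - (pt x).2) * ((pt y).1 - (pt x).1))) +
      t' * (ε * (((pt y').1 - (pt x).1) * ((pt y).2 - (pt x).2) -
      ((pt y').2 - (pt x).2) * ((pt y).1 - (pt x).1)))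
      = ε * ((((1 - t') * (pt x').1 + t' * (pt y').1) - (pt x).1) * ((pt y).2 - (pt x).2) -
        (((1 - t') * (pt x').2 + t' * (pt y').2) - (pt x).2) * ((pt y).1 - (pt x).1)) := by ring
    rw [this, e1, e2]
    ring
  rcases eq_or_lt_of_le ht0' with h | h
  · rw [← h] at key
    nlinarith
  · have : 0 ≤ (1 - t') * (ε * (((pt x').1 - (pt x).1) * ((pt y).2 - (pt x).2) -
      ((pt x').2 - (pt x).2) * ((pt y).1 - (pt x).1))) := mul_nonneg (by linarith) a.le
    have : 0 < t' * (ε * (((pt y').1 - (pt x).1) * ((pt y).2 - (pt x).2) -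
      ((pt y').2 - (pt x).2) * ((pt y).1 - (pt x).1))) := mul_pos h b
    linarith

lemma share_left {n : ℕ} (pt : Fin (2 * n) → ℝ × ℝ) (ε : ℝ)
    (hε : ∀ i j k, i < j → j < k → 0 < ε * orient (pt i) (pt j) (pt k))
    (x y' y : Fin (2 * n)) (h2 : x < y') (h3 : y' < y) (z : ℝ × ℝ)
    (hz : z ∈ segment ℝ (pt x) (pt y)) (hz' : z ∈ segment ℝ (pt x) (pt y')) : z = pt x := by
  rw [segment_eq_image] at hz hz'
  obtain ⟨t, ⟨ht0, ht1⟩, rfl⟩ := hz
  obtain ⟨t', ⟨ht0', ht1'⟩, he⟩ := hz'
  have b := hε x y' y h2 h3
  have e1 := congrArg Prod.fst he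
  have e2 := congrArg Prod.snd he
  simp only [Prod.fst_add, Prod.smul_fst, smul_eq_mul, Prod.snd_add, Prod.smul_snd] at e1 e2
  unfold orient at b
  have key : t' * (ε * (((pt y').1 - (pt x).1) * ((pt y).2 - (pt x).2) -
      ((pt y').2 - (pt x).2) * ((pt y).1 - (pt x).1))) = 0 := by
    have : t' * (ε * (((pt y').1 - (pt x).1) * ((pt y).2 - (pt x).2) -
      ((pt y').2 - (pt x).2) * ((pt y).1 - (pt x).1)))
      = ε * ((((1 - t') * (pt x).1 + t' * (pt y').1) - (pt x).1) * ((pt y).2 - (pt x).2) -
        (((1 - t') * (pt x).2 + t' * (pt y').2) - (pt x).2) * ((pt y).1 - (pt x).1)) := by ring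
    rw [this, e1, e2]
    ring
  have ht : t' = 0 := by
    rcases mul_eq_zero.mp key with h | h
    · exact h
    · exact absurd h b.ne'
  rw [← he, ht]
  simp

lemma share_right {n : ℕ} (pt : Fin (2 * n) → ℝ × ℝ) (ε : ℝ)
    (hε : ∀ i j k, i < j → j < k → 0 < ε * orient (pt i) (pt j) (pt k))
    (x x' y : Fin (2 * n)) (h2 : x < x') (h3 : x' < y) (z : ℝ × ℝ)
    (hz : z ∈ segment ℝ (pt x) (pt y)) (hz' : z ∈ segment ℝ (pt x') (pt y)) : z = pt y := by
  rw [segment_eq_image] at hz hz'
  obtain ⟨t, ⟨ht0, ht1⟩, rfl⟩ := hz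
  obtain ⟨t', ⟨ht0', ht1'⟩, he⟩ := hz'
  have b := hε x x' y h2 h3
  have e1 := congrArg Prod.fst he
  have e2 := congrArg Prod.snd he
  simp only [Prod.fst_add, Prod.smul_fst, smul_eq_mul, Prod.snd_add, Prod.smul_snd] at e1 e2
  unfold orient at b
  have key : (1 - t') * (ε * (((pt x').1 - (pt x).1) * ((pt y).2 - (pt x).2) -
      ((pt x').2 - (pt x).2) * ((pt y).1 - (pt x).1))) = 0 := by
    have : (1 - t') * (ε * (((pt x').1 - (pt x).1) * ((pt y).2 - (pt x).2) -
      ((pt x').2 - (pt x).2) * ((pt y).1 - (pt x).1)))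
      = ε * ((((1 - t') * (pt x').1 + t' * (pt y).1) - (pt x).1) * ((pt y).2 - (pt x).2) -
        (((1 - t') * (pt x').2 + t' * (pt y).2) - (pt x).2) * ((pt y).1 - (pt x).1)) := by ring
    rw [this, e1, e2]
    ring
  have ht : t' = 1 := by
    rcases mul_eq_zero.mp key with h | h
    · linarith
    · exact absurd h b.ne'
  rw [← he, ht]
  simp

/-- crossing chords of a convex polygon meet -/
lemma crossing {n : ℕ} (pt : Fin (2 * n) → ℝ × ℝ) (ε : ℝ)
    (hε : ∀ i j k, i < j → j < k → 0 < ε * orient (pt i) (pt j) (pt k))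
    (a b c d : Fin (2 * n)) (h1 : a < b) (h2 : b < c) (h3 : c < d) :
    ∃ z, z ∈ segment ℝ (pt a) (pt c) ∧ z ∈ segment ℝ (pt b) (pt d) := by
  have A := hε b c d h2 h3
  have B := hε a b d h1 (h2.trans h3)
  have C := hε a c d (h1.trans h2) h3
  have D := hε a b c h1 h2
  have hABCD : ε * orient (pt b) (pt c) (pt d) + ε * orient (pt a) (pt b) (pt d)
      = ε * orient (pt a) (pt c) (pt d) + ε * orient (pt a) (pt b) (pt c) := by
    unfold orient; ring
  set A' := ε * orient (pt b) (pt c) (pt d) with hA'
  set B' := ε * orient (pt a) (pt b) (pt d) with hB'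
  set C' := ε * orient (pt a) (pt c) (pt d) with hC'
  set D' := ε * orient (pt a) (pt b) (pt c) with hD'
  have hAB : 0 < A' + B' := by linarith
  refine ⟨(A' / (A' + B')) • pt a + (B' / (A' + B')) • pt c, ?_, ?_⟩
  · refine ⟨A' / (A' + B'), B' / (A' + B'), by positivity, by positivity, ?_, rfl⟩
    field_simp
  · refine ⟨C' / (A' + B'), D' / (A' + B'), by positivity, by positivity, ?_, ?_⟩
    · rw [← add_div, ← hABCD]
      field_simp
    · ext
      · simp only [Prod.fst_add, Prod.smul_fst, smul_eq_mul]
        rw [div_mul_eq_mul_div, div_mul_eq_mul_div, div_mul_eq_mul_div, div_mul_eq_mul_div,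
          ← add_div, ← add_div]
        congr 1
        rw [hA', hB', hC', hD']
        unfold orient
        ring
      · simp only [Prod.snd_add, Prod.smul_snd, smul_eq_mul]
        rw [div_mul_eq_mul_div, div_mul_eq_mul_div, div_mul_eq_mul_div, div_mul_eq_mul_div,
          ← add_div, ← add_div]
        congr 1
        rw [hA', hB', hC', hD']
        unfold orient
        ring


lemma Config.exists_sign {n : ℕ} (P : Config n) : ∃ ε : ℝ,
    ∀ i j k, i < j → j < k → 0 < ε * orient (P.pt i) (P.pt j) (P.pt k) := by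
  rcases P.convex with h | h
  · exact ⟨1, fun i j k hij hjk => by simpa using h i j k hij hjk⟩
  · exact ⟨-1, fun i j k hij hjk => by have := h i j k hij hjk; linarith⟩

lemma strict_of_succ (M : ℕ) (g : ℕ → ℕ) (h : ∀ s, s + 1 < M → g s < g (s + 1)) :
    ∀ s s', s < s' → s' < M → g s < g s' := by
  intro s s' hss
  induction hss with
  | refl => intro h'; exact h s h'
  | step hle ih =>
    rename_i t
    intro h'
    exact (ih (by omega)).trans (h t h')

lemma mono_of_succ (M : ℕ) (g : ℕ → ℕ) (h : ∀ s, s + 1 < M → g s < g (s + 1)) :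
    ∀ s s', s ≤ s' → s' < M → g s ≤ g s' := by
  intro s s' hss h'
  rcases Nat.eq_or_lt_of_le hss with rfl | h1
  · exact le_rfl
  · exact (strict_of_succ M g h s s' h1 h').le

/-- every configuration contains a long plane harmonic alternating path -/
theorem path_lower {n : ℕ} (hn : 4 ≤ n) (P : Config n) (s : ℕ) (hs : s < n) :
    ∃ (M : ℕ) (v : ℕ → Fin (2 * n)), 1 ≤ M ∧ IsPath P s (2 * (M - 1)) v ∧
      (((n / 4 : ℕ)) : ℝ) ≤ 64 * (7 + 6 * Real.log ((n / 4 : ℕ) : ℝ)) * M := by
  obtain ⟨ε, hε⟩ := P.exists_sign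
  set m := n / 4 with hm
  have hm0 : 0 < m := by omega
  -- a run of reds with consecutive labels
  obtain ⟨P0, c0, hrun⟩ : ∃ P0 c0 : ℕ, ∀ i < 2 * m, P0 + i < n ∧ (P0 + i + s) % n = c0 + i := by
    rcases Nat.lt_or_ge n (2 * s) with h | h
    · refine ⟨n - s, 0, ?_⟩
      intro i hi
      refine ⟨by omega, ?_⟩
      have : n - s + i + s = n + i := by omega
      rw [this, Nat.add_mod_left, Nat.mod_eq_of_lt (by omega)]
      omega
    · refine ⟨0, s, ?_⟩
      intro i hi
      refine ⟨by omega, ?_⟩
      rw [Nat.mod_eq_of_lt (by omega)]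
      omega
  -- blue labels, read backwards along the hull
  set q : ℕ → ℕ := fun b => if h : b < n then (P.blueLabel ⟨n - 1 - b, by omega⟩).val else 0 with hq
  have hqinj : ∀ b < m, ∀ b' < m, q b = q b' → b = b' := by
    intro b hb b' hb' h
    have h1 : b < n := by omega
    have h2 : b' < n := by omega
    simp only [hq, h1, h2, dif_pos] at h
    have h3 := P.blueLabel.injective (Fin.ext h)
    rw [Fin.mk.injEq] at h3
    omega
  obtain ⟨M, β, ρ, hM, b1, b2, b3, b4, b5, b6⟩ := comb_lower m hm0 q hqinj
  have sβ := strict_of_succ M β b2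
  have sρ := strict_of_succ (M - 1) ρ (fun s hs => b4 s (by omega))
  have mβ := mono_of_succ M β b2
  have mρ := mono_of_succ (M - 1) ρ (fun s hs => b4 s (by omega))
  have hbnd1 : ∀ t, (if t < M then β t else 0) < n := by
    intro t
    split_ifs with h
    · have := b1 t h; omega
    · omega
  -- red and blue vertices
  set rv : ℕ → Fin (2 * n) := fun t => ⟨(P0 + ρ t) % n, by
    have := Nat.mod_lt (P0 + ρ t) (show 0 < n by omega); omega⟩ with hrv
  set bv : ℕ → Fin (2 * n) := fun t => ⟨2 * n - 1 - β t, by omega⟩ with hbv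
  have hrvval : ∀ t, t + 1 < M → (rv t).val = P0 + ρ t := by
    intro t ht
    have := (hrun (ρ t) (b3 t ht)).1
    simp only [hrv]
    exact Nat.mod_eq_of_lt this
  have hbvval : ∀ t, (bv t).val = 2 * n - 1 - β t := fun t => rfl
  set v : ℕ → Fin (2 * n) := fun e => if e % 2 = 0 then bv (e / 2) else rv (e / 2) with hv
  have hrlab : ∀ t, t + 1 < M → P.label s (rv t) = c0 + ρ t := by
    intro t ht
    have h1 := hrun (ρ t) (b3 t ht)
    have h2 := hrvval t ht
    unfold Config.label
    rw [dif_pos (by rw [h2]; exact h1.1)]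
    rw [h2]
    exact h1.2
  have hblab : ∀ t, t < M → P.label s (bv t) = q (β t) := by
    intro t ht
    have h1 := b1 t ht
    unfold Config.label
    rw [dif_neg (by rw [hbvval]; omega)]
    simp only [hq]
    rw [dif_pos (show β t < n by omega)]
    congr 2
    apply Fin.ext
    simp only [hbvval]
    omega
  have hredv : ∀ t, t + 1 < M → IsRed (rv t) := by
    intro t ht
    unfold IsRed
    rw [hrvval t ht]
    exact (hrun (ρ t) (b3 t ht)).1
  have hbluev : ∀ t, t < M → ¬ IsRed (bv t) := by
    intro t ht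
    unfold IsRed
    rw [hbvval]
    have := b1 t ht
    omega
  have hve : ∀ e, e % 2 = 0 → v e = bv (e / 2) := fun e he => by simp only [hv]; rw [if_pos he]
  have hvo : ∀ e, e % 2 = 1 → v e = rv (e / 2) := fun e he => by
    simp only [hv]; rw [if_neg (by omega)]
  -- the edge e, as a red-blue chord
  have hedge : ∀ e < 2 * (M - 1), segment ℝ (P.pt (v e)) (P.pt (v (e + 1)))
      = segment ℝ (P.pt (rv (e / 2))) (P.pt (bv ((e + 1) / 2))) := by
    intro e he
    rcases Nat.mod_two_eq_zero_or_one e with h | h
    · rw [hve e h, hvo (e + 1) (by omega), segment_symm]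
      have e1 : (e + 1) / 2 = e / 2 := by omega
      rw [e1]
    · rw [hvo e h, hve (e + 1) (by omega)]
  have hends : ∀ e < 2 * (M - 1), (v e = rv (e / 2) ∧ v (e + 1) = bv ((e + 1) / 2)) ∨
      (v e = bv ((e + 1) / 2) ∧ v (e + 1) = rv (e / 2)) := by
    intro e he
    rcases Nat.mod_two_eq_zero_or_one e with h | h
    · right
      rw [hve e h, hvo (e + 1) (by omega)]
      have e1 : (e + 1) / 2 = e / 2 := by omega
      rw [e1]
      exact ⟨rfl, rfl⟩
    · left
      rw [hvo e h, hve (e + 1) (by omega)]
      exact ⟨rfl, rfl⟩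
  have hwt : ∀ e < 2 * (M - 1), P.label s (v e) + P.label s (v (e + 1)) = c0 + W q β ρ e := by
    intro e he
    rcases hends e he with ⟨h1, h2⟩ | ⟨h1, h2⟩
    · rw [h1, h2, hrlab _ (by omega), hblab _ (by omega)]
      unfold W
      ring
    · rw [h1, h2, hrlab _ (by omega), hblab _ (by omega)]
      unfold W
      ring
  have hplane : ∀ a b, a < b → b < 2 * (M - 1) →
      ∀ z ∈ segment ℝ (P.pt (v a)) (P.pt (v (a + 1))) ∩ segment ℝ (P.pt (v b)) (P.pt (v (b + 1))),
      (z = P.pt (v a) ∨ z = P.pt (v (a + 1))) ∧ (z = P.pt (v b) ∨ z = P.pt (v (b + 1))) := by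
    intro a b hab hb z hz
    rw [hedge a (by omega), hedge b hb] at hz
    obtain ⟨hz1, hz2⟩ := hz
    have hr : (rv (a / 2)).val ≤ (rv (b / 2)).val := by
      rw [hrvval _ (by omega), hrvval _ (by omega)]
      have := mρ (a / 2) (b / 2) (by omega) (by omega)
      omega
    have hbl : (bv ((b + 1) / 2)).val ≤ (bv ((a + 1) / 2)).val := by
      rw [hbvval, hbvval]
      have := mβ ((a + 1) / 2) ((b + 1) / 2) (by omega) (by omega)
      omega
    have hlt : (rv (b / 2)).val < (bv ((b + 1) / 2)).val := by
      have h1 := hredv (b / 2) (by omega)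
      have h2 := hbluev ((b + 1) / 2) (by omega)
      unfold IsRed at h1 h2
      omega
    -- common endpoints
    have hza : z = P.pt (rv (a / 2)) ∨ z = P.pt (bv ((a + 1) / 2)) →
        (z = P.pt (v a) ∨ z = P.pt (v (a + 1))) := by
      intro h
      rcases hends a (by omega) with ⟨h1, h2⟩ | ⟨h1, h2⟩
      · rw [h1, h2]; exact h
      · rw [h1, h2]; exact h.symm
    have hzb : z = P.pt (rv (b / 2)) ∨ z = P.pt (bv ((b + 1) / 2)) →
        (z = P.pt (v b) ∨ z = P.pt (v (b + 1))) := by
      intro h
      rcases hends b hb with ⟨h1, h2⟩ | ⟨h1, h2⟩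
      · rw [h1, h2]; exact h
      · rw [h1, h2]; exact h.symm
    rcases Nat.eq_or_lt_of_le hr with hr | hr
    · have hr' : rv (a / 2) = rv (b / 2) := Fin.ext hr
      rcases Nat.eq_or_lt_of_le hbl with hbl | hbl
      · exfalso
        -- both equal: impossible
        have e1 : a / 2 = b / 2 := by
          by_contra hne
          have : ρ (a / 2) < ρ (b / 2) := sρ _ _ (by omega) (by omega)
          rw [hrvval _ (by omega), hrvval _ (by omega)] at hr
          omega
        have e2 : (a + 1) / 2 = (b + 1) / 2 := by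
          by_contra hne
          have := sβ ((a + 1) / 2) ((b + 1) / 2) (by omega) (by omega)
          have h1 := b1 ((b + 1) / 2) (by omega)
          rw [hbvval, hbvval] at hbl
          omega
        omega
      · have := share_left P.pt ε hε (rv (a / 2)) (bv ((b + 1) / 2)) (bv ((a + 1) / 2))
          (by rw [hr']; exact hlt) hbl z hz1 (by rw [hr']; exact hz2)
        refine ⟨hza (Or.inl this), hzb (Or.inl ?_)⟩
        rw [this, hr']
    · rcases Nat.eq_or_lt_of_le hbl with hbl | hbl
      · have hbl' : bv ((b + 1) / 2) = bv ((a + 1) / 2) := Fin.ext hbl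
        have := share_right P.pt ε hε (rv (a / 2)) (rv (b / 2)) (bv ((a + 1) / 2))
          hr (by rw [← hbl']; exact hlt) z hz1 (by rw [← hbl']; exact hz2)
        refine ⟨hza (Or.inr this), hzb (Or.inr ?_)⟩
        rw [this, hbl']
      · exfalso
        exact nested P.pt ε hε (rv (a / 2)) (rv (b / 2)) (bv ((b + 1) / 2)) (bv ((a + 1) / 2))
          hr hlt hbl z hz1 hz2
  refine ⟨M, v, hM, ⟨?_, ?_, ?_, ?_⟩, b6⟩
  · -- simple
    intro a ha b hb hab
    rcases Nat.mod_two_eq_zero_or_one a with h | h <;>
      rcases Nat.mod_two_eq_zero_or_one b with h' | h'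
    · rw [hve a h, hve b h'] at hab
      have h1 := congrArg Fin.val hab
      rw [hbvval, hbvval] at h1
      have h2 := b1 (a / 2) (by omega)
      have h3 := b1 (b / 2) (by omega)
      by_contra hne
      rcases Nat.lt_or_ge (a / 2) (b / 2) with h4 | h4
      · have := sβ (a / 2) (b / 2) h4 (by omega); omega
      · have := sβ (b / 2) (a / 2) (by omega) (by omega); omega
    · exfalso
      rw [hve a h, hvo b h'] at hab
      have h1 := hbluev (a / 2) (by omega)
      have h2 := hredv (b / 2) (by omega)
      rw [hab] at h1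
      exact h1 h2
    · exfalso
      rw [hvo a h, hve b h'] at hab
      have h1 := hbluev (b / 2) (by omega)
      have h2 := hredv (a / 2) (by omega)
      rw [hab] at h2
      exact h1 h2
    · rw [hvo a h, hvo b h'] at hab
      have h1 := congrArg Fin.val hab
      rw [hrvval _ (by omega), hrvval _ (by omega)] at h1
      by_contra hne
      rcases Nat.lt_or_ge (a / 2) (b / 2) with h4 | h4
      · have := sρ (a / 2) (b / 2) h4 (by omega); omega
      · have := sρ (b / 2) (a / 2) (by omega) (by omega); omega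
  · -- alternating
    intro a ha
    rcases hends a ha with ⟨h1, h2⟩ | ⟨h1, h2⟩
    · rw [h1, h2]
      exact ⟨fun _ => hbluev _ (by omega), fun _ => hredv _ (by omega)⟩
    · rw [h1, h2]
      exact ⟨fun h => absurd h (hbluev _ (by omega)), fun h => absurd (hredv _ (by omega)) h⟩
  · -- plane
    intro a ha b hb hab z hz
    rcases Nat.lt_or_ge a b with h | h
    · exact hplane a b h hb z hz
    · have := hplane b a (by omega) ha z ⟨hz.2, hz.1⟩
      exact ⟨this.2, this.1⟩
  · -- harmonic
    intro a ha b hb hab h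
    rw [hwt a ha, hwt b hb] at h
    exact hab (b5 a ha b hb (by omega))


/-- a path is not longer than `2n - 1` -/
lemma IsPath.length_le {n : ℕ} {P : Config n} {s l : ℕ} {v : ℕ → Fin (2 * n)}
    (h : IsPath P s l v) : l + 1 ≤ 2 * n := by
  have h1 : Set.InjOn v (Finset.range (l + 1)) := by
    intro a ha b hb hab
    simp only [Finset.coe_range, Set.mem_Iio] at ha hb
    exact h.simple a (by omega) b (by omega) hab
  have h2 := Finset.card_le_card_of_injOn (s := Finset.range (l + 1))
    (t := (Finset.univ : Finset (Fin (2 * n)))) v (fun _ _ => Finset.mem_univ _) h1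
  simpa using h2

lemma Config.bddAbove {n : ℕ} (P : Config n) (s : ℕ) :
    BddAbove {l | ∃ v : ℕ → Fin (2 * n), IsPath P s l v} := by
  refine ⟨2 * n, ?_⟩
  rintro l ⟨v, hv⟩
  have := hv.length_le
  omega

lemma Config.le_maxPath {n : ℕ} (P : Config n) (s l : ℕ) (v : ℕ → Fin (2 * n))
    (h : IsPath P s l v) : l ≤ P.maxPath s :=
  le_csSup (P.bddAbove s) ⟨v, h⟩

/-- points on a parabola -/
lemma orient_parabola (a b c : ℝ) : orient (a, a ^ 2) (b, b ^ 2) (c, c ^ 2)
    = (b - a) * (c - a) * (c - b) := by
  unfold orient; ring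

/-- the configuration of `2n` points on a parabola -/
noncomputable def parabola (n : ℕ) (π : Equiv.Perm (Fin n)) : Config n where
  pt := fun i => ((i.val : ℝ), (i.val : ℝ) ^ 2)
  inj := by
    intro i j hij
    have := congrArg Prod.fst hij
    simp only [Nat.cast_inj] at this
    exact Fin.ext this
  convex := by
    left
    intro i j k hij hjk
    rw [orient_parabola]
    have h1 : (i.val : ℝ) < j.val := by exact_mod_cast hij
    have h2 : (j.val : ℝ) < k.val := by exact_mod_cast hjk
    have h3 : (0 : ℝ) < j.val - i.val := by linarith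
    have h4 : (0 : ℝ) < k.val - i.val := by linarith
    have h5 : (0 : ℝ) < k.val - j.val := by linarith
    positivity
  blueLabel := π

lemma one_le_maxPath {n : ℕ} (hn : 1 ≤ n) (P : Config n) (s : ℕ) : 1 ≤ P.maxPath s := by
  apply P.le_maxPath s 1 (fun e => if e = 0 then ⟨0, by omega⟩ else ⟨n, by omega⟩)
  refine ⟨?_, ?_, ?_, ?_⟩
  · intro a ha b hb hab
    have : a = 0 ∨ a = 1 := by omega
    have : b = 0 ∨ b = 1 := by omega
    rcases ‹a = 0 ∨ a = 1› with rfl | rfl <;> rcases ‹b = 0 ∨ b = 1› with rfl | rfl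
    · rfl
    · simp only [if_true, one_ne_zero, if_false, Fin.mk.injEq] at hab; omega
    · simp only [if_true, one_ne_zero, if_false, Fin.mk.injEq] at hab; omega
    · rfl
  · intro a ha
    have : a = 0 := by omega
    subst this
    unfold IsRed
    simp only [if_true]
    have : ¬ (0 + 1 = 0) := by omega
    rw [if_neg this]
    simp only [lt_self_iff_false, not_false_iff, iff_true]
    omega
  · intro a ha b hb hab
    omega
  · intro a ha b hb hab
    omega

lemma lower_real {n : ℕ} (hn : 2 ≤ n) (P : Config n) (s : ℕ) (hs : s < n) :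
    (n : ℝ) / (13000 * Real.log n) ≤ P.maxPath s := by
  have hn' : (2 : ℝ) ≤ n := by exact_mod_cast hn
  have hlog2 := Real.log_two_gt_d9
  have hlogn : Real.log 2 ≤ Real.log n := Real.log_le_log (by norm_num) hn'
  have hlogpos : 0 < Real.log n := by linarith
  have h1 : (1 : ℝ) ≤ P.maxPath s := by exact_mod_cast one_le_maxPath (by omega) P s
  rcases Nat.lt_or_ge n 4 with h4 | h4
  · have : (n : ℝ) < 4 := by exact_mod_cast h4
    refine le_trans ?_ h1
    rw [div_le_one (by positivity)]
    nlinarith
  · obtain ⟨M, v, hM, hv, hb⟩ := path_lower h4 P s hs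
    have h2 := P.le_maxPath s _ v hv
    set L : ℝ := ((P.maxPath s : ℕ) : ℝ) with hL
    have h2' : 2 * ((M : ℝ) - 1) ≤ L := by
      have : ((2 * (M - 1) : ℕ) : ℝ) ≤ P.maxPath s := by exact_mod_cast h2
      push_cast [hM] at this
      exact this
    have h3 : (M : ℝ) / 2 ≤ L := by
      have : (1 : ℝ) ≤ M := by exact_mod_cast hM
      linarith
    have h4' : (4 : ℝ) ≤ n := by exact_mod_cast h4
    have hm1 : (n : ℝ) / 8 ≤ ((n / 4 : ℕ) : ℝ) := by
      have : n ≤ 8 * (n / 4) := by omega
      have : (n : ℝ) ≤ 8 * ((n / 4 : ℕ) : ℝ) := by exact_mod_cast this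
      linarith
    have hm2 : Real.log ((n / 4 : ℕ) : ℝ) ≤ Real.log n := by
      apply Real.log_le_log
      · linarith
      · exact_mod_cast Nat.div_le_self n 4
    have hlog4 : (7 : ℝ) ≤ 6 * Real.log n := by
      have : Real.log 4 ≤ Real.log n := Real.log_le_log (by norm_num) h4'
      have e : Real.log 4 = 2 * Real.log 2 := by
        rw [show (4 : ℝ) = 2 ^ 2 by norm_num, Real.log_pow]; norm_num
      linarith
    have hM0 : (0 : ℝ) ≤ M := by positivity
    have h5 : (n : ℝ) / 8 ≤ 64 * (12 * Real.log n) * M := by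
      refine le_trans hm1 (le_trans hb ?_)
      apply mul_le_mul_of_nonneg_right _ hM0
      linarith
    rw [div_le_iff₀ (by positivity)]
    nlinarith

/-- **Near-linear harmonic alternating paths.** -/
theorem result : ∀ n : ℕ, 2 ≤ n → ∀ s < n,
    (n : ℝ) / (13000 * Real.log n) ≤ f n s := by
  intro n hn s hs
  have hne : (Set.range fun P : Config n => P.maxPath s).Nonempty :=
    ⟨_, ⟨parabola n (Equiv.refl _), rfl⟩⟩
  obtain ⟨P, hP⟩ := Nat.sInf_mem hne
  have : f n s = P.maxPath s := hP.symm
  rw [this]
  exact lower_real hn P s hs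

end Pool.Agent.Results.MP_70146a_co.NearLinearPath
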